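import Pool.Agent.MWGX.StmtsA

/-!
# Row EI4 of block MWGX: coprime gap and label difference
-/

set_option autoImplicit false

namespace Pool.Agent.MWGX.H19

open Pool.Agent.Helper14_MV Pool.Agent.Helper2_MV
open Pool.Agent.MWGR (X It Kaba F1 Dm Ec Es Ea Al0 Rh FE)
open Pool.Agent.MWGX

theorem inv_mod {q r : ℕ} (hr : 1 ≤ r) (h : Nat.Coprime q r) :
    ∃ k, 1 ≤ k ∧ k * q ≡ 1 [MOD r] := by
  by_cases h1 : r = 1
  · subst h1
    exact ⟨1, le_refl 1, Nat.modEq_one⟩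
  · obtain ⟨m, hm⟩ := Nat.exists_mul_mod_eq_one_of_coprime h (by omega)
    refine ⟨m + r, by omega, ?_⟩
    have e : (m + r) * q = q * m + r * q := by ring
    rw [e]
    unfold Nat.ModEq
    rw [Nat.add_mul_mod_self_left, hm.2, Nat.mod_eq_of_lt (by omega)]

theorem ei4 (h1 : DgrStmt) (h2 : EamStmt) : Ei4Stmt := by
  intro n θ q r hn hr hc hI hD hE
  obtain ⟨δ, hδ⟩ := h1 n θ hn hI
  have hdr : δ ∣ r := (hδ.iff r).mp hD
  obtain ⟨k, hk, hkq⟩ := inv_mod hr hc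
  exact (h2 n θ hn hI (k * q) ((h2 n θ hn hI q hE).1 k hk)).2 δ hδ 1 (hkq.of_dvd hdr)

end Pool.Agent.MWGX.H19
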